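import Pool.Agent.helper93.TV.Spec3

/-!
# Row tv:ME (MP_29f1cd_al): gauge equivalent models belong to equivalent categories
-/

set_option autoImplicit false

namespace Pool.Agent.helper93.TV

open BigOperators Finset

private lemma ME_act {V : Type} [Fintype V] [DecidableEq V] (u : V → V → ℂ)
    (hcol : ∀ v w, ∑ x, star (u x v) * u x w = if v = w then 1 else 0)
    (F : V → V → V → V → ℂ) (a g b' d' : V) :
    ∑ x, ∑ y, star (u x a) * star (u y g) * act u F x y b' d' =
      ∑ b, ∑ d, F a g b d * star (u b' b) * star (u d' d) := by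
  have h1 : ∀ x y, star (u x a) * star (u y g) * act u F x y b' d' =
      ∑ x', ∑ y', ∑ b, ∑ d, (star (u x a) * u x x') * ((star (u y g) * u y y') *
        (F x' y' b d * star (u b' b) * star (u d' d))) := by
    intro x y
    unfold act
    simp only [mul_sum]
    refine sum_congr rfl fun x' _ => sum_congr rfl fun y' _ => sum_congr rfl fun b _ =>
      sum_congr rfl fun d _ => ?_
    ring
  calc ∑ x, ∑ y, star (u x a) * star (u y g) * act u F x y b' d'
      = ∑ x, ∑ y, ∑ x', ∑ y', (star (u x a) * u x x') * ((star (u y g) * u y y') *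
          ∑ b, ∑ d, (F x' y' b d * star (u b' b) * star (u d' d))) := by
        refine sum_congr rfl fun x _ => sum_congr rfl fun y _ => ?_
        rw [h1]
        refine sum_congr rfl fun x' _ => sum_congr rfl fun y' _ => ?_
        simp only [mul_sum]
    _ = ∑ x, ∑ x', ∑ y, ∑ y', (star (u x a) * u x x') * ((star (u y g) * u y y') *
          ∑ b, ∑ d, (F x' y' b d * star (u b' b) * star (u d' d))) :=
        sum_congr rfl fun x _ => sum_comm
    _ = ∑ x', ∑ x, ∑ y, ∑ y', (star (u x a) * u x x') * ((star (u y g) * u y y') *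
          ∑ b, ∑ d, (F x' y' b d * star (u b' b) * star (u d' d))) := sum_comm
    _ = ∑ x', ∑ x, ∑ y', ∑ y, (star (u x a) * u x x') * ((star (u y g) * u y y') *
          ∑ b, ∑ d, (F x' y' b d * star (u b' b) * star (u d' d))) :=
        sum_congr rfl fun x' _ => sum_congr rfl fun x _ => sum_comm
    _ = ∑ x', ∑ y', ∑ x, ∑ y, (star (u x a) * u x x') * ((star (u y g) * u y y') *
          ∑ b, ∑ d, (F x' y' b d * star (u b' b) * star (u d' d))) :=
        sum_congr rfl fun x' _ => sum_comm
    _ = ∑ x', ∑ y', (if a = x' then 1 else 0) * ((if g = y' then 1 else 0) *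
          ∑ b, ∑ d, (F x' y' b d * star (u b' b) * star (u d' d))) := by
        refine sum_congr rfl fun x' _ => sum_congr rfl fun y' _ => ?_
        rw [← hcol a x', ← hcol g y', sum_mul, sum_mul]
        refine sum_congr rfl fun x _ => ?_
        rw [mul_sum]
    _ = ∑ b, ∑ d, (F a g b d * star (u b' b) * star (u d' d)) := by
        rw [sum_eq_single a]
        · rw [sum_eq_single g]
          · rw [if_pos rfl, if_pos rfl, one_mul, one_mul]
          · intro y' _ hy
            rw [if_neg (c := g = y') (fun h => hy h.symm), zero_mul, mul_zero]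
          · intro h
            exact absurd (mem_univ _) h
        · intro x' _ hx
          refine sum_eq_zero fun y' _ => ?_
          rw [if_neg (fun h => hx h.symm), zero_mul]
        · intro h
          exact absurd (mem_univ _) h

theorem ME : ME_stmt := by
  rintro C₁ C₂ I V _ _ _ _ D F₁ F₂ - - ⟨σ₁, e₁, a1, a2, a3, a4⟩ ⟨σ₂, e₂, b1, b2, b3, b4⟩ ⟨u, hu, hF⟩
  refine ⟨σ₁.trans σ₂.symm, fun v w => star (u (e₂ w) (e₁ v)), ?_, ?_, ?_, ?_⟩
  · intro v w hvw
    have h0 : u (e₂ w) (e₁ v) ≠ 0 := by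
      intro h
      apply hvw
      rw [h, star_zero]
    obtain ⟨h1, h2, h3⟩ := hu.supp _ _ h0
    rw [b1, a1] at h1
    rw [b2, a2] at h2
    rw [b3, a3] at h3
    refine ⟨?_, ?_, ?_⟩
    · rw [Equiv.trans_apply, ← h1, Equiv.symm_apply_apply]
    · rw [Equiv.trans_apply, ← h2, Equiv.symm_apply_apply]
    · rw [Equiv.trans_apply, ← h3, Equiv.symm_apply_apply]
  · intro v v'
    have h1 := hu.col (e₁ v) (e₁ v')
    have h2 : ∑ w, star (u (e₂ w) (e₁ v)) * star (star (u (e₂ w) (e₁ v'))) =
        ∑ x, star (u x (e₁ v)) * u x (e₁ v') := by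
      rw [← Equiv.sum_comp e₂]
      refine sum_congr rfl fun w _ => ?_
      rw [star_star]
    rw [h2, h1]
    simp only [EmbeddingLike.apply_eq_iff_eq]
  · intro w w'
    have h1 := hu.row (e₂ w) (e₂ w')
    have h2 : ∑ v, star (star (u (e₂ w) (e₁ v))) * star (u (e₂ w') (e₁ v)) =
        ∑ x, u (e₂ w) x * star (u (e₂ w') x) := by
      rw [← Equiv.sum_comp e₁]
      refine sum_congr rfl fun v _ => ?_
      rw [star_star]
    rw [h2, h1]
    simp only [EmbeddingLike.apply_eq_iff_eq]
  · intro α γ β' δ'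
    have h1 := ME_act u hu.col F₁ (e₁ α) (e₁ γ) (e₂ β') (e₂ δ')
    rw [← hF] at h1
    have h2 : ∑ α', ∑ γ', star (u (e₂ α') (e₁ α)) * star (u (e₂ γ') (e₁ γ)) * C₂.F α' γ' β' δ' =
        ∑ x, ∑ y, star (u x (e₁ α)) * star (u y (e₁ γ)) * F₂ x y (e₂ β') (e₂ δ') := by
      rw [← Equiv.sum_comp e₂]
      refine sum_congr rfl fun α' _ => ?_
      rw [← Equiv.sum_comp e₂]
      refine sum_congr rfl fun γ' _ => ?_
      rw [b4]
    have h3 : ∑ β, ∑ δ, C₁.F α γ β δ * star (u (e₂ β') (e₁ β)) * star (u (e₂ δ') (e₁ δ)) =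
        ∑ b, ∑ d, F₁ (e₁ α) (e₁ γ) b d * star (u (e₂ β') b) * star (u (e₂ δ') d) := by
      rw [← Equiv.sum_comp e₁]
      refine sum_congr rfl fun β _ => ?_
      rw [← Equiv.sum_comp e₁]
      refine sum_congr rfl fun δ _ => ?_
      rw [a4]
    rw [h2, h3]
    exact h1

end Pool.Agent.helper93.TV
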