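import Pool.Agent.helper93.TV.Spec2

/-!
# Row tv:PC (MP_29f1cd_al): calculus of the extensions Phi
-/

set_option autoImplicit false

namespace Pool.Agent.helper93.TV

open BigOperators Finset Matrix

theorem PC : PC_stmt := by
  intro _ hFP hFO hFK I V _ _ _ _ D X c m hF hcnt
  have hc : D.Conn X c := hF.conn
  have fam := hFO I V D X c m hF
  obtain ⟨k1, k2, k3, k4⟩ := hFK I V D X c hc
  have fp := hFP I V D X c hc m hcnt
  refine ⟨fam, ?_, ?_, ?_, ?_⟩
  · intro n hn n' hn' n'' hn'' T S hT hS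
    obtain ⟨f1, e1⟩ := fam n hn n' hn' T hT
    obtain ⟨f2, e2⟩ := fam n' hn' n'' hn'' S hS
    have h := fp n n'' _ (k1 n n' n'' _ _ f1 f2)
    simp only [e1, e2] at h
    exact h
  · intro n hn n' hn' T hT
    obtain ⟨f1, e1⟩ := fam n hn n' hn' T hT
    have h := fp n' n _ (k2 n n' _ f1)
    simp only [e1] at h
    exact h
  · intro n n' k hn hn' T hT
    obtain ⟨f1, e1⟩ := fam n (by omega) n' (by omega) T hT
    have h := fp (n + k) (n' + k) _ (k3 n n' k _ f1)
    have h2 : D.rtens X n n' k (fun _ => T) D.o = D.rtens X n n' k (D.Phi X c m n n' T) D.o := by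
      funext w w'
      unfold FD.rtens
      rw [e1]
    rw [h2]
    exact h
  · intro n n' k hn hn' T hT
    obtain ⟨f1, e1⟩ := fam n (by omega) n' (by omega) T hT
    exact fp (k + n) (k + n') _ (k4 n n' k _ f1)

end Pool.Agent.helper93.TV
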