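import Pool.Agent.helper93.TV.Spec1

/-!
# Row tv:Q1 (MP_29f1cd_al): the first crossing relation
-/

set_option autoImplicit false

namespace Pool.Agent.helper93.TV

open BigOperators Finset Matrix

private lemma Q1_isom {V : Type} [Fintype V] [DecidableEq V] (C : V → V → ℂ) (lam : V → ℂ)
    (hC : ∀ x y, ∑ κ, star (C κ x) * C κ y = if x = y then lam x else 0) (P P' : V → ℂ) :
    ∑ κ, (∑ x, C κ x * P x) * star (∑ y, C κ y * P' y) = ∑ x, lam x * (P x * star (P' x)) := by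
  have h1 : ∀ κ, (∑ x, C κ x * P x) * star (∑ y, C κ y * P' y) =
      ∑ x, ∑ y, (P x * star (P' y)) * (star (C κ y) * C κ x) := by
    intro κ
    rw [star_sum, sum_mul_sum]
    refine sum_congr rfl fun x _ => sum_congr rfl fun y _ => ?_
    rw [star_mul']
    ring
  calc ∑ κ, (∑ x, C κ x * P x) * star (∑ y, C κ y * P' y)
      = ∑ κ, ∑ x, ∑ y, (P x * star (P' y)) * (star (C κ y) * C κ x) := sum_congr rfl fun κ _ => h1 κ
    _ = ∑ x, ∑ κ, ∑ y, (P x * star (P' y)) * (star (C κ y) * C κ x) := sum_comm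
    _ = ∑ x, ∑ y, ∑ κ, (P x * star (P' y)) * (star (C κ y) * C κ x) :=
        sum_congr rfl fun x _ => sum_comm
    _ = ∑ x, ∑ y, (P x * star (P' y)) * (if y = x then lam y else 0) := by
        refine sum_congr rfl fun x _ => sum_congr rfl fun y _ => ?_
        rw [← mul_sum, hC]
    _ = ∑ x, lam x * (P x * star (P' x)) := by
        refine sum_congr rfl fun x _ => ?_
        simp only [mul_ite, mul_zero, sum_ite_eq', mem_univ, if_true]
        ring

private lemma Q1_swap {V : Type} [Fintype V] (f : V → V → V → V → ℂ) :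
    ∑ γ, ∑ κ, ∑ β, ∑ β', f γ κ β β' = ∑ β, ∑ β', ∑ κ, ∑ γ, f γ κ β β' := by
  calc ∑ γ, ∑ κ, ∑ β, ∑ β', f γ κ β β' = ∑ κ, ∑ γ, ∑ β, ∑ β', f γ κ β β' := sum_comm
    _ = ∑ κ, ∑ β, ∑ γ, ∑ β', f γ κ β β' := sum_congr rfl fun κ _ => sum_comm
    _ = ∑ β, ∑ κ, ∑ γ, ∑ β', f γ κ β β' := sum_comm
    _ = ∑ β, ∑ κ, ∑ β', ∑ γ, f γ κ β β' :=
        sum_congr rfl fun β _ => sum_congr rfl fun κ _ => sum_comm
    _ = ∑ β, ∑ β', ∑ κ, ∑ γ, f γ κ β β' := sum_congr rfl fun β _ => sum_comm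

theorem Q1 : Q1_stmt := by
  intro hS1 I V _ _ _ _ D F hF hD α δ α' δ'
  have S1 := hS1 I V D F hF
  have hsupp := hF.uf.conn.supp
  have hrow := hF.uf.conn.row
  set a : I → ℝ := D.dm F with ha
  have hpos : ∀ x, 0 < a x := hD.pos
  have hne : ∀ x, a x ≠ 0 := fun x => (hpos x).ne'
  set μ : V → ℂ := fun x => ((a (D.s1 x) / (a (D.s2 x) * a (D.t x)) : ℝ) : ℂ) with hμ
  have hμ0 : ∀ x, μ x ≠ 0 := by
    intro x
    simp only [hμ]
    rw [Complex.ofReal_ne_zero]
    exact div_ne_zero (hne _) (mul_ne_zero (hne _) (hne _))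
  have hμs : ∀ x, star (μ x) = μ x := fun x => Complex.conj_ofReal _
  set lam : V → ℂ := fun x => ((a (D.s2 x) / (a (D.s1 x) * a (D.t x)) : ℝ) : ℂ) with hlam
  -- the support of `Bm`
  have hB : ∀ β x, D.Bm F β x ≠ 0 → D.t β = D.s1 x ∧ D.s2 β = D.du (D.s2 x) := by
    intro β x hx
    obtain ⟨⟨h1, h2, h3, h4, h5, h6⟩, -, -⟩ := hsupp _ _ _ _ hx
    refine ⟨h1, ?_⟩
    rw [D.s2_eta] at h5
    rw [h5, D.du_du]
  -- the formula (A)
  have hA : ∀ x γ κ ζ, μ x * F x γ κ ζ =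
      ∑ κ', D.Cm F κ κ' * ∑ β, D.Bm F β x * star (F β ζ κ' γ) := by
    intro x γ κ ζ
    calc μ x * F x γ κ ζ = ∑ y, (if y = x then μ y else 0) * F y γ κ ζ := by
          simp only [ite_mul, zero_mul, sum_ite_eq', mem_univ, if_true]
      _ = ∑ y, (∑ β, star (D.Bm F β y) * D.Bm F β x) * F y γ κ ζ := by
          refine sum_congr rfl fun y _ => ?_
          rw [hD.BHB y x]
      _ = ∑ y, ∑ β, D.Bm F β x * (star (D.Bm F β y) * F y γ κ ζ) := by
          refine sum_congr rfl fun y _ => ?_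
          rw [sum_mul]
          refine sum_congr rfl fun β _ => ?_
          ring
      _ = ∑ β, ∑ y, D.Bm F β x * (star (D.Bm F β y) * F y γ κ ζ) := sum_comm
      _ = ∑ β, D.Bm F β x * ∑ κ', D.Cm F κ κ' * star (F β ζ κ' γ) := by
          refine sum_congr rfl fun β _ => ?_
          rw [← mul_sum, S1]
      _ = ∑ β, ∑ κ', D.Cm F κ κ' * (D.Bm F β x * star (F β ζ κ' γ)) := by
          refine sum_congr rfl fun β _ => ?_
          rw [mul_sum]
          refine sum_congr rfl fun κ' _ => ?_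
          ring
      _ = ∑ κ', ∑ β, D.Cm F κ κ' * (D.Bm F β x * star (F β ζ κ' γ)) := sum_comm
      _ = _ := by
          refine sum_congr rfl fun κ' _ => ?_
          rw [mul_sum]
  set P : V → V → ℂ := fun γ κ' => ∑ β, D.Bm F β α * star (F β δ κ' γ) with hP
  set P' : V → V → ℂ := fun γ κ' => ∑ β, D.Bm F β α' * star (F β δ' κ' γ) with hP'
  -- step 1
  have h1 : μ α * star (μ α') *
      ∑ γ, ∑ κ, (a (D.s2 γ) : ℂ) * F α γ κ δ * star (F α' γ κ δ') =
      ∑ γ, (a (D.s2 γ) : ℂ) * ∑ κ', lam κ' * (P γ κ' * star (P' γ κ')) := by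
    rw [mul_sum]
    refine sum_congr rfl fun γ _ => ?_
    rw [← Q1_isom (D.Cm F) lam hD.CHC (P γ) (P' γ), mul_sum, mul_sum]
    refine sum_congr rfl fun κ _ => ?_
    rw [← hA α γ κ δ, ← hA α' γ κ δ', star_mul']
    ring
  -- step 2: the scalars
  have h2 : ∀ γ κ', (a (D.s2 γ) : ℂ) * (lam κ' * (P γ κ' * star (P' γ κ'))) =
      ((a (D.s2 δ) / a (D.s2 α) : ℝ) : ℂ) * (P γ κ' * star (P' γ κ')) := by
    intro γ κ'
    have h3 : (a (D.s2 γ) : ℂ) * lam κ' * P γ κ' = ((a (D.s2 δ) / a (D.s2 α) : ℝ) : ℂ) * P γ κ' := by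
      simp only [hP]
      rw [mul_sum, mul_sum]
      refine sum_congr rfl fun β _ => ?_
      by_cases hb : D.Bm F β α = 0
      · rw [hb]
        ring
      by_cases hf : F β δ κ' γ = 0
      · rw [hf, star_zero]
        ring
      obtain ⟨-, hb2⟩ := hB β α hb
      obtain ⟨⟨-, c2, -, c4, c5, -⟩, -, -⟩ := hsupp _ _ _ _ hf
      have h4 : (a (D.s2 γ) : ℂ) * lam κ' = ((a (D.s2 δ) / a (D.s2 α) : ℝ) : ℂ) := by
        simp only [hlam]
        rw [← Complex.ofReal_mul]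
        congr 1
        have h5 : a (D.s1 κ') = a (D.s2 α) := by
          rw [← c4, hb2, ha, hD.du]
        rw [← c2, ← c5, h5]
        have := hne (D.t κ')
        have := hne (D.s2 α)
        field_simp
      rw [h4]
    rw [← mul_assoc, ← mul_assoc, h3, mul_assoc]
  -- step 3: the row relation
  have h3 : ∀ β β', ∑ κ', ∑ γ, (star (F β δ κ' γ) * F β' δ' κ' γ) =
      if β' = β ∧ δ' = δ ∧ D.t β = D.s1 δ then 1 else 0 := by
    intro β β'
    by_cases ht : D.t β' = D.s1 δ'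
    · have h4 := hrow β' δ' β δ ht (mem_univ _) (mem_univ _)
      have h5 : ∑ κ', ∑ γ, (star (F β δ κ' γ) * F β' δ' κ' γ) =
          ∑ e', ∑ l', F β' δ' e' l' * star (F β δ e' l') :=
        sum_congr rfl fun _ _ => sum_congr rfl fun _ _ => mul_comm _ _
      rw [h5, h4]
      by_cases h6 : β' = β ∧ δ' = δ
      · rw [if_pos h6, if_pos ⟨h6.1, h6.2, by rw [← h6.1, ← h6.2]; exact ht⟩]
      · rw [if_neg h6, if_neg (fun h7 => h6 ⟨h7.1, h7.2.1⟩)]
    · have h5 : ∀ κ' γ, F β' δ' κ' γ = 0 := by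
        intro κ' γ
        by_contra hc
        exact ht (hsupp _ _ _ _ hc).1.1
      rw [if_neg]
      · refine sum_eq_zero fun κ' _ => sum_eq_zero fun γ _ => ?_
        rw [h5, mul_zero]
      · rintro ⟨h6, h7, h8⟩
        apply ht
        rw [h6, h7]
        exact h8
  -- step 4
  have h4 : ∑ γ, ∑ κ', P γ κ' * star (P' γ κ') =
      if δ' = δ ∧ D.s1 α = D.s1 δ then (if α' = α then μ α' else 0) else 0 := by
    have h5 : ∀ γ κ', P γ κ' * star (P' γ κ') =
        ∑ β, ∑ β', (D.Bm F β α * star (D.Bm F β' α')) * (star (F β δ κ' γ) * F β' δ' κ' γ) := by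
      intro γ κ'
      simp only [hP, hP']
      rw [star_sum, sum_mul_sum]
      refine sum_congr rfl fun β _ => sum_congr rfl fun β' _ => ?_
      rw [star_mul', star_star]
      ring
    rw [sum_congr rfl fun γ _ => sum_congr rfl fun κ' _ => h5 γ κ', Q1_swap]
    have h6 : ∀ β β', ∑ κ', ∑ γ, (D.Bm F β α * star (D.Bm F β' α')) * (star (F β δ κ' γ) * F β' δ' κ' γ) =
        (D.Bm F β α * star (D.Bm F β' α')) * if β' = β ∧ δ' = δ ∧ D.t β = D.s1 δ then 1 else 0 := by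
      intro β β'
      rw [← h3 β β', mul_sum]
      refine sum_congr rfl fun κ' _ => ?_
      rw [mul_sum]
    rw [sum_congr rfl fun β _ => sum_congr rfl fun β' _ => h6 β β']
    have h7 : ∀ β, ∑ β', (D.Bm F β α * star (D.Bm F β' α')) *
        (if β' = β ∧ δ' = δ ∧ D.t β = D.s1 δ then (1 : ℂ) else 0) =
        if δ' = δ ∧ D.s1 α = D.s1 δ then star (D.Bm F β α') * D.Bm F β α else 0 := by
      intro β
      rw [sum_eq_single β]
      · by_cases hb : D.Bm F β α = 0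
        · rw [hb]
          simp
        · have hb1 := (hB β α hb).1
          rw [hb1]
          by_cases h8 : δ' = δ ∧ D.s1 α = D.s1 δ
          · rw [if_pos h8, if_pos ⟨rfl, h8.1, h8.2⟩]
            ring
          · rw [if_neg h8, if_neg (fun h9 => h8 h9.2), mul_zero]
      · intro β' _ hne'
        rw [if_neg (fun h9 => hne' h9.1), mul_zero]
      · intro h9
        exact absurd (mem_univ _) h9
    rw [sum_congr rfl fun β _ => h7 β]
    by_cases h8 : δ' = δ ∧ D.s1 α = D.s1 δ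
    · simp only [if_pos h8]
      rw [hD.BHB α' α]
    · simp only [if_neg h8, sum_const_zero]
  -- conclusion
  have h5 : ∑ γ, (a (D.s2 γ) : ℂ) * ∑ κ', lam κ' * (P γ κ' * star (P' γ κ')) =
      ((a (D.s2 δ) / a (D.s2 α) : ℝ) : ℂ) * ∑ γ, ∑ κ', P γ κ' * star (P' γ κ') := by
    rw [mul_sum]
    refine sum_congr rfl fun γ _ => ?_
    rw [mul_sum, mul_sum]
    exact sum_congr rfl fun κ' _ => h2 γ κ'
  rw [h5, h4, hμs] at h1
  have h6 : μ α * μ α' ≠ 0 := mul_ne_zero (hμ0 α) (hμ0 α')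
  apply mul_left_cancel₀ h6
  rw [h1]
  by_cases h7 : α = α' ∧ δ = δ' ∧ D.s1 α = D.s1 δ
  · obtain ⟨h8, h9, h10⟩ := h7
    subst h8
    subst h9
    rw [if_pos ⟨rfl, h10⟩, if_pos rfl, if_pos ⟨rfl, rfl, h10⟩]
    simp only [hμ]
    rw [← Complex.ofReal_mul, ← Complex.ofReal_mul, ← Complex.ofReal_mul]
    congr 1
    have e1 := hne (D.s2 α)
    have e2 := hne (D.s1 α)
    have e3 := hne (D.t α)
    field_simp
  · rw [if_neg h7, mul_zero]
    by_cases h8 : δ' = δ ∧ D.s1 α = D.s1 δ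
    · rw [if_pos h8, if_neg (fun h9 => h7 ⟨h9.symm, h8.1.symm, h8.2⟩), mul_zero]
    · rw [if_neg h8, mul_zero]

end Pool.Agent.helper93.TV
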